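import Pool.Agent.Helper3.GU.Fin
import Pool.Graph.R_pool_sql_team_seeded_1acbe0a2.Y116.WE.Main

/-!
# Finite generation of Weil-étale motivic cohomology and graph hypersurfaces

Let `k` be the field with `p` elements. For a simple graph `G` with the vertices `0, …, n` let `K_G` be the
Kirchhoff polynomial: the determinant of the Laplacian matrix (in the variables of the edges) without the
row and the column of the vertex `0`, and `Ψ_G` the first Symanzik polynomial, the determinant of the
expanded Laplacian matrix. `G` runs through the graphs with at most three neighbours of each vertex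
(`Subcubic`).

`T.L X i n = H^i_W(X, ℤ(n))` is the Weil-étale motivic cohomology of the smooth projective schemes, and
`T.W X i n = H_i^c(X_W, ℤ[1/p](n))` the Weil-étale motivic Borel-Moore homology of all schemes with
coefficients `ℤ[1/p]`. The known properties which are used (`IsWeilEtale`) are those of the starting
library: localization sequences, affine bundles, products with `𝔾_m`, and the reduction of finite
generation to smooth projective schemes (Geisser, de Jong, Gabber).

**Theorem.** The groups `H^i_W(X, ℤ(n))`, `n ≥ 0`, of all smooth projective schemes `X` over `k` are
finitely generated if and only if the groups `H_i^c(X_W, ℤ[1/p](n))` are finitely generated over `ℤ[1/p]` for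
each one of the following classes of schemes `X`: all separated schemes of finite type; the complements of
`K_G = 0` in the affine spaces; the hypersurfaces `K_G = 0`; the complements of `K_G = 0` in the tori; the
complements of `Ψ_G = 0` in the tori.
-/

set_option autoImplicit false

open AlgebraicGeometry Pool.Agent.Y116.UV Pool.Agent.Q193.LT Pool.Agent.Y101.Th Pool.Agent.Y116.WE
  Pool.Agent.Helper3.GU

namespace Pool.Agent.Results.MP_cb388a_ag.GraphHypersurfaces

/-- **Finite generation of Weil-étale motivic cohomology and graph hypersurfaces.** -/
theorem result {k : Type} [Field k] [Finite k] (hk : (Nat.card k).Prime) {T : WeilEtale k}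
    (hT : IsWeilEtale T) :
    List.TFAE [∀ X : Sch k, SmProj X → Lich T X,
      ∀ X : Sch k, FT True X → WFin T X,
      ∀ (n : ℕ) (G : SimpleGraph (Fin (n + 1))), Subcubic G → WFin T (graphS k G),
      ∀ (n : ℕ) (G : SimpleGraph (Fin (n + 1))), Subcubic G → WFin T (graphH k G),
      ∀ (n : ℕ) (G : SimpleGraph (Fin (n + 1))), Subcubic G → WFin T (graphT k G),
      ∀ (n : ℕ) (G : SimpleGraph (Fin (n + 1))), Subcubic G → WFin T (feynmanT k G)] :=
  cons_all (cubic_tfae (mot_of_bnd (bnd_w hT)) (presents_frac (frac_of_card hk)))
    hT.alterations_all

end Pool.Agent.Results.MP_cb388a_ag.GraphHypersurfaces
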