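import Pool.Agent.Helper59.IP.Main
import Pool.Graph.R_pool_sql_team_seeded_1acbe0a2.Y116.WE.Main

/-!
# Finite generation of Weil-étale motivic cohomology and independence polynomials of graphs

Let `k` be the field with `p` elements. For a graph `G` with the vertices `V` let `I_G = ∑_s ∏_{v ∈ s} x_v`,
the sum over the independent sets `s` (sets of pairwise non-adjacent vertices) of `G`: the multivariate
independence polynomial. It is the partition function of the lattice gas on `G` with hard core interaction
and activities `x_v`. `G` runs through the graphs whose vertices are covered by three cliques
(`ThreeCliques`), so that an independent set has at most three elements and `I_G` is a cubic polynomial: the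
sum of `∏_{v ∈ s} x_v` over all cliques `s` of the 3-colourable complementary graph.

`T.L X i n = H^i_W(X, ℤ(n))` is the Weil-étale motivic cohomology of the smooth projective schemes, and
`T.W X i n = H_i^c(X_W, ℤ[1/p](n))` the Weil-étale motivic Borel-Moore homology of all schemes with
coefficients `ℤ[1/p]`. The known properties which are used (`IsWeilEtale`) are those of the starting
library: localization sequences, affine bundles, products with `𝔾_m`, and the reduction of finite
generation to smooth projective schemes (Geisser, de Jong, Gabber).

**Theorem.** The groups `H^i_W(X, ℤ(n))`, `n ≥ 0`, of all smooth projective schemes `X` over `k` are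
finitely generated if and only if the groups `H_i^c(X_W, ℤ[1/p](n))` are finitely generated over `ℤ[1/p]`
for each one of the following classes of schemes `X`: all separated schemes of finite type; the complements
of `I_G = 0` in the affine spaces, for the graphs `G` covered by three cliques; the cubic hypersurfaces `I_G
= 0`; the complements of `I_G = 0` in the tori; the intersections of `I_G = 0` with the tori.

The universality theorem for these polynomials is `Pool.Agent.Helper59.IP.ind_tfae`: a property of schemes
of finite type that is closed under closed-open decompositions and the usual affine bundles is true for all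
schemes if it is true for the complements of the hypersurfaces `I_G = 0`. The idea: let `Γ` be covered by
two cliques and `A_1, …, A_m` sets of vertices. Add to `Γ` a vertex `w` adjacent to `Γ`, a clique of
vertices `v_r` adjacent to `w` and to the vertices of `Γ` outside of `A_r`, and a vertex `u` adjacent to the
`v_r`. The graph is covered by three cliques and has the polynomial `(1 + u)(w + I_Γ) + ∑_r v_r I_{A_r}`.
Cutting along `w + I_Γ = 0`, passing from the invertible values of `∑ v_r I_{A_r}` to the value one, and
using Jouanolou's device one arrives at the common zeros of the polynomials `I_{A_r}` of the induced
subgraphs, and these describe the trilinear hypersurfaces `T = 1`, which are universal by a theorem of the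
library.
-/

set_option autoImplicit false

open AlgebraicGeometry Pool.Agent.Y116.UV Pool.Agent.Q193.LT Pool.Agent.Y101.Th Pool.Agent.Y116.WE
  Pool.Agent.Helper3.GU Pool.Agent.Helper59.IP

namespace Pool.Agent.Results.MP_cb388a_ag.IndependencePolynomials

/-- **Finite generation of Weil-étale motivic cohomology and independence polynomials of graphs.** -/
theorem result {k : Type} [Field k] [Finite k] (hk : (Nat.card k).Prime) {T : WeilEtale k}
    (hT : IsWeilEtale T) :
    List.TFAE [∀ X : Sch k, SmProj X → Lich T X,
      ∀ X : Sch k, FT True X → WFin T X,
      ∀ (n : ℕ) (G : SimpleGraph (Fin n)), ThreeCliques G → WFin T (indS k G),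
      ∀ (n : ℕ) (G : SimpleGraph (Fin n)), ThreeCliques G → WFin T (indH k G),
      ∀ (n : ℕ) (G : SimpleGraph (Fin n)), ThreeCliques G → WFin T (indT k G),
      ∀ (n : ℕ) (G : SimpleGraph (Fin n)), ThreeCliques G → WFin T (indHT k G)] :=
  ind_cons_all (ind_tfae (mot_of_bnd (bnd_w hT)) (presents_frac (frac_of_card hk)))
    hT.alterations_all

end Pool.Agent.Results.MP_cb388a_ag.IndependencePolynomials
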