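import Pool.Agent.Helper10.PC.Half
import Pool.Agent.Helper3.GU.Fin

/-!
# Finite generation of Weil-étale motivic cohomology in one weight and one dimension, and smooth moduli
# spaces of planar configurations

Let `k` be a finite prime field with `p` elements, and `E = ℤ[1/p]`. For a separated scheme `X` of finite
type over `k` let `H n i X = H^i_{W,c}(X, ℤ(n)) ⊗ E` be the Weil-étale motivic cohomology with compact
supports (arithmetic cohomology) with `p` inverted (Geisser); for smooth projective `Y` it is
`H^i_W(Y, ℤ(n)) ⊗ E`, and `W n i Y` is the group `H^i_W(Y, ℤ(n))` itself.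

The facts which are used: for each `n` and each `i` isomorphism invariance, `H n i ∅ = 0`, and the
exactness of `H n i U → H n i X → H n i Z` for closed subschemes `Z` with the open complement `U`
(`IsHalfMod`; no long exact sequences, affine bundles, or products with `𝔾_m`); for each `n`, that smooth
projective schemes generate in each dimension (`Gen`, by the alterations of de Jong and Gabber). For the
last part of the theorem: `H n i Y` is finitely generated over `E` if `H^i_W(Y, ℤ(n))` is finitely
generated (`invert`); and if all the groups `H^i_W(Y, ℤ(n)) ⊗ E` are finitely generated, for smooth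
projective `Y` and `n ≥ 0`, then so are all the groups `H^i_W(Y, ℤ(n))` (`integral`; a theorem of Geisser:
one gets the conjectures of Tate and Beilinson, which do not depend on the prime number `ℓ`).

A matroid `M` of rank three on the set `Fin 4 ⊕ Fin m` is **framed** if any three of the four elements of
`Fin 4` form a base; it is **simple** if any two elements are independent. Let `modS k M` be the moduli
space over `k` of the configurations of `m + 4` different points in the projective plane in which exactly
the triples prescribed by `M` are collinear, modulo projective transformations: the four points of `Fin 4`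
are the points of `e_1, e_2, e_3, e_1 + e_2 + e_3`, and the other ones have normalised coordinates.

**Theorem.** (1) For each `X` there is a finite list `L` of simple matroids of rank three, whose moduli
spaces are integral, smooth, and of dimension at most `dim X`, such that for all `n` and `i` (and all
theories `H`): if `H n i (modS k M)` is finitely generated for all `M` in `L` then so is `H n i X`.

(2) For each weight `n` and each `d` the following are equivalent: `H n i Y` is finitely generated for all
`i` and all smooth projective schemes `Y` of dimension at most `d` (the conjecture `L^n(Y)` up to `p`);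
`H n i X` is finitely generated for all `i` and all `X` of dimension at most `d`; `H n i (modS k M)` is
finitely generated for all `i` and all integral smooth moduli spaces `modS k M` of dimension at most `d`,
`M` simple and framed.

(3) For all `n`, `i`, `d`: `H n i X` is finitely generated for all `X` of dimension at most `d` if and only
if this is so for these smooth moduli spaces.

(4) The conjecture `L^n(Y)` is true for all smooth projective `Y` over `k` and all `n ≥ 0` if and only if
`H n i (modS k M)` is finitely generated for all `n ≥ 0`, all `i` and all integral smooth moduli spaces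
`modS k M`, `M` simple and framed.

So for example the conjecture for surfaces in the weight one (the finiteness of the Brauer group up to
`p`, and so on) is a statement on the smooth moduli spaces of planar configurations of dimension two. The
earlier reductions (to cubic hypersurfaces, graph hypersurfaces) lead to singular schemes of larger
dimension, and they need all weights and degrees, affine bundles and products with `𝔾_m`.
-/

set_option autoImplicit false

open CategoryTheory AlgebraicGeometry Pool.Agent.Y116.UV Pool.Agent.Z125.UN Pool.Agent.Q193.LT
  Pool.Agent.Q282.UK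
  Pool.Agent.Helper3.GU Pool.Agent.Helper13.RM Pool.Agent.Helper10.PC

universe w w' u

namespace Pool.Agent.Results.MP_cb388a_ag.PlanarConfigurations

section

variable {k : Type} [Field k] {E : Type w'} [CommRing E]

/-- The groups `H n i X` are finitely generated for all `i`. -/
def AllFin (H : ℤ → ℤ → Sch k → ModuleCat.{w} E) (n : ℤ) (X : Sch k) : Prop :=
  ∀ i : ℤ, Module.Finite E (H n i X)

/-- Smooth projective schemes generate, in each weight and each dimension: if the groups `H n i Y` are
finitely generated for all `i` and all smooth projective schemes `Y` of dimension at most `d` then the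
groups `H n i X` are finitely generated for all `i` and all separated schemes `X` of finite type and of
dimension at most `d`. -/
def Gen (H : ℤ → ℤ → Sch k → ModuleCat.{w} E) : Prop :=
  ∀ (n : ℤ) (d : ℕ), (∀ Y : Sch k, SmoothProj Y → DimAt Y d → AllFin H n Y) →
    ∀ X : Sch k, FT True X → DimAt X d → AllFin H n X

theorem cut_fin [IsNoetherianRing E] {H : ℤ → ℤ → Sch k → ModuleCat.{w} E}
    (hH : ∀ n i, IsHalfMod (H n i)) (n : ℤ) : Cut True (AllFin H n) where
  iso hX e h i := (cut_finite (hH n i)).iso hX e (h i)
  empty X hX i := (cut_finite (hH n i)).empty X hX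
  total z u hX ht hZ hU i := (cut_finite (hH n i)).total z u hX ht (hZ i) (hU i)

end

/-- **Finite generation of Weil-étale motivic cohomology and smooth moduli spaces of planar
configurations.** See the explanations above. -/
theorem result {k : Type} [Field k] [Finite k] (hk : (Nat.card k).Prime) {E : Type w'} [CommRing E]
    [IsNoetherianRing E] :
    (∀ X : Sch k, FT True X →
      ∃ L : List Mat, (∀ M ∈ L, SmoothMod k (topologicalKrullDim X.left) M.2) ∧
        ∀ H : Sch k → ModuleCat.{w} E, IsHalfMod H →
          (∀ M ∈ L, Module.Finite E (H (modS k M.2))) → Module.Finite E (H X)) ∧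
    ∀ H : ℤ → ℤ → Sch k → ModuleCat.{w} E, (∀ n i, IsHalfMod (H n i)) → Gen H →
      (∀ (n : ℤ) (d : ℕ), List.TFAE [∀ Y : Sch k, SmoothProj Y → DimAt Y d → AllFin H n Y,
        ∀ X : Sch k, FT True X → DimAt X d → AllFin H n X,
        ∀ (m : ℕ) (M : Matroid (Fin 4 ⊕ Fin m)), SmoothMod k d M →
          AllFin H n (modS k M)]) ∧
      (∀ (n i : ℤ) (d : ℕ),
        (∀ X : Sch k, FT True X → DimAt X d → Module.Finite E (H n i X)) ↔
          ∀ (m : ℕ) (M : Matroid (Fin 4 ⊕ Fin m)), SmoothMod k d M →
            Module.Finite E (H n i (modS k M))) ∧
      ∀ (W : ℤ → ℤ → Sch k → Type u) [∀ n i Y, AddCommGroup (W n i Y)]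
        (_invert : ∀ n i Y, SmoothProj Y → AddGroup.FG (W n i Y) → Module.Finite E (H n i Y))
        (_integral : (∀ n : ℤ, 0 ≤ n → ∀ Y, SmoothProj Y → AllFin H n Y) →
          ∀ n : ℤ, 0 ≤ n → ∀ Y, SmoothProj Y → ∀ i, AddGroup.FG (W n i Y)),
        (∀ n : ℤ, 0 ≤ n → ∀ Y, SmoothProj Y → ∀ i, AddGroup.FG (W n i Y)) ↔
          ∀ n : ℤ, 0 ≤ n → ∀ (d m : ℕ) (M : Matroid (Fin 4 ⊕ Fin m)),
            SmoothMod k d M → AllFin H n (modS k M) := by
  have hR : Presents ({0, 1} : Set k) := presents_frac (frac_of_card hk)
  have key : ∀ H : ℤ → ℤ → Sch k → ModuleCat.{w} E, (∀ n i, IsHalfMod (H n i)) → Gen H →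
      ∀ (n : ℤ) (d : ℕ), List.TFAE [∀ Y : Sch k, SmoothProj Y → DimAt Y d → AllFin H n Y,
        ∀ X : Sch k, FT True X → DimAt X d → AllFin H n X,
        ∀ (m : ℕ) (M : Matroid (Fin 4 ⊕ Fin m)), SmoothMod k d M →
          AllFin H n (modS k M)] := by
    intro H hH hG n d
    tfae_have 1 → 2 := hG n d
    tfae_have 2 → 1 := fun h Y hY hd => h Y hY.ft hd
    tfae_have 2 ↔ 3 := config_iff_smooth (cut_fin hH n) hR d
    tfae_finish
  refine ⟨fun X hX => ?_, fun H hH hG => ⟨key H hH hG, fun n i d => ?_, ?_⟩⟩
  · obtain ⟨L, hL, h⟩ := config_list hR X hX
    exact ⟨L, hL, fun H hH hM => h _ (cut_finite hH) hM⟩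
  · exact config_iff_smooth (cut_finite (hH n i)) hR d
  · intro W _ invert integral
    constructor
    · intro h n hn d m M hM
      exact hG n d (fun Y hY _ i => invert n i Y hY (h n hn Y hY i)) _ (ft_modT _) hM.dim
    · intro h
      refine integral fun n hn Y hY => ?_
      exact config_smooth (cut_fin hH n) hR (fun m M h1 h2 h3 h4 =>
        h n hn (3 * m) m M ⟨h1, h2, h3, h4, dim_modT _⟩) Y hY.ft

end Pool.Agent.Results.MP_cb388a_ag.PlanarConfigurations
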