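import Pool.Agent.Helper3.GM.App2
import Pool.Agent.Helper3.GU.Fin
import Pool.Graph.R_pool_sql_team_seeded_1acbe0a2.Y116.WE.Main

/-!
# Finite generation of Weil-étale motivic cohomology and sparse matrices

Let `k` be the field with `p` elements. For a set `S` of positions in the `n × n` matrices with at most three positions in each row and in each
column (`Sparse`) let `detS` be the determinant of the generic matrix with zeros outside of `S`. (With two
positions instead of three it would be a product of monomials and binomials.)

`T.L X i n = H^i_W(X, ℤ(n))` is the Weil-étale motivic cohomology of the smooth projective schemes, and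
`T.W X i n = H_i^c(X_W, ℤ[1/p](n))` the Weil-étale motivic Borel-Moore homology of all schemes with
coefficients `ℤ[1/p]`. The known properties which are used (`IsWeilEtale`) are those of the starting
library: localization sequences, affine bundles, products with `𝔾_m`, and the reduction of finite
generation to smooth projective schemes (Geisser, de Jong, Gabber). `WFin T X` says that all groups
`H_i^c(X_W, ℤ[1/p](n))` are finitely generated over `ℤ[1/p]`.

**Theorem.** (1) For each separated scheme `X` of finite type over `k` there is a finite list `L` of sets `S` of
positions, with at most three positions in each row and in each column, such that `WFin T X` follows from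
`WFin T Z` for the schemes `Z` of one of the following four kinds, `S` in `L`:
the schemes of the invertible matrices with zeros outside of `S`; of the matrices of
determinant one with zeros outside of `S`; of the matrices of determinant zero with zeros outside of `S`; of the
invertible matrices with zeros outside of `S` and invertible entries at all positions in `S`.

(2) The groups `H^i_W(X, ℤ(n))`, `n ≥ 0`, of all smooth projective schemes `X` over `k` are finitely
generated if and only if `WFin T X` is true for all separated schemes `X` of finite type, and if and only if
it is true for all the schemes of one of the four kinds.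
-/

set_option autoImplicit false

open AlgebraicGeometry Pool.Agent.Y116.UV Pool.Agent.Q193.LT Pool.Agent.Y101.Th Pool.Agent.Y116.WE
  Pool.Agent.Helper3.GU Pool.Agent.Helper3.GM

namespace Pool.Agent.Results.MP_cb388a_ag.SparseMatrices

/-- **Finite generation of Weil-étale motivic cohomology and sparse matrices.** -/
theorem result {k : Type} [Field k] [Finite k] (hk : (Nat.card k).Prime) :
    (∀ X : Sch k, FT True X → ∃ L : List (Σ n : ℕ, Finset (Fin n × Fin n)), (∀ S ∈ L, Sparse S.2) ∧
      ∀ T : WeilEtale k, IsWeilEtale T → OneKind (WFin T) L → WFin T X) ∧
    ∀ T : WeilEtale k, IsWeilEtale T →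
      List.TFAE [∀ X : Sch k, SmProj X → Lich T X,
        ∀ X : Sch k, FT True X → WFin T X,
        ∀ (n : ℕ) (S : Finset (Fin n × Fin n)), Sparse S → WFin T (invS k S),
        ∀ (n : ℕ) (S : Finset (Fin n × Fin n)), Sparse S → WFin T (oneS k S),
        ∀ (n : ℕ) (S : Finset (Fin n × Fin n)), Sparse S → WFin T (zeroS k S),
        ∀ (n : ℕ) (S : Finset (Fin n × Fin n)), Sparse S → WFin T (torS k S)] := by
  refine ⟨fun X hX => ?_, fun T hT => ?_⟩
  · obtain ⟨L, hL, h⟩ := mat_finite (sep := True) (presents_frac (frac_of_card hk)) X hX
    exact ⟨L, hL, fun T hT => h _ (mot_of_bnd (bnd_w hT))⟩
  · exact stmts_cons (mat_tfae (mot_of_bnd (bnd_w hT)) (presents_frac (frac_of_card hk)))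
      hT.alterations_all

end Pool.Agent.Results.MP_cb388a_ag.SparseMatrices
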